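import Pool.Agent.H26.Lib.R_pool_sql_team_seeded_3997aac3.Q5.BR.EC
import Pool.Agent.H26.Lib.R_seed8.W353.EF.Defs

/-! Euler systems of projective varieties over extension fields. -/

set_option autoImplicit false
set_option linter.unusedSectionVars false

namespace Pool.Agent.Q5.VL

open NumberField IsDedekindDomain Filter Topology Polynomial Pool.Agent.W353.NF
  Pool.Agent.W401.Cheb Pool.Agent.Q5.BR
open Pool.Agent.W353.EF (IsFrobenius LFun cone)

section frob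
variable {K₀ K F : Type} [Field K₀] [Field K] [NumberField K] [Field F] [NumberField F]
  [Algebra K₀ K] [Algebra K₀ F] [Algebra K F] [IsScalarTower K₀ K F] {n : ℕ}
  {X : Set (MvPolynomial (Fin n) (𝓞 K₀))} {d i N : ℕ}

theorem ker_comp {w : HeightOneSpectrum (𝓞 F)} {κ : Type} [Field κ] {φ : 𝓞 F →+* κ}
    (h : RingHom.ker φ = w.asIdeal) :
    RingHom.ker (φ.comp (algebraMap (𝓞 K) (𝓞 F))) = (w.under (𝓞 K)).asIdeal := by
  rw [← RingHom.comap_ker, h]
  rfl

theorem tower_comp {κ : Type} [Field κ] (φ : 𝓞 F →+* κ) :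
    (φ.comp (algebraMap (𝓞 K) (𝓞 F))).comp (algebraMap (𝓞 K₀) (𝓞 K)) =
      φ.comp (algebraMap (𝓞 K₀) (𝓞 F)) := by
  apply RingHom.ext
  intro x
  change φ (algebraMap (𝓞 K) (𝓞 F) (algebraMap (𝓞 K₀) (𝓞 K) x)) = φ (algebraMap (𝓞 K₀) (𝓞 F) x)
  congr 1
  apply RingOfIntegers.ext
  exact (IsScalarTower.algebraMap_apply K₀ K F (x : K₀)).symm

/-- the eigenvalues at a prime of `F` -/
theorem frob_up {w : HeightOneSpectrum (𝓞 F)} {α : Fin N → ℂ}
    (h : IsFrobenius X d i (w.under (𝓞 K)) α) :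
    IsFrobenius X d i w (fun j => α j ^ rdeg K w) := by
  obtain ⟨β, h1, h2, h3⟩ := h
  have hq : (Ideal.absNorm w.asIdeal : ℝ) =
      (Ideal.absNorm (w.under (𝓞 K)).asIdeal : ℝ) ^ rdeg K w := by
    exact_mod_cast absNorm_rdeg w
  have hqc : (Ideal.absNorm w.asIdeal : ℂ) =
      (Ideal.absNorm (w.under (𝓞 K)).asIdeal : ℂ) ^ rdeg K w := by
    exact_mod_cast absNorm_rdeg w
  refine ⟨fun k => (β k).map (fun z => z ^ rdeg K w), ?_, ?_, ?_⟩
  · simp only [h1, Multiset.map_map]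
    rfl
  · intro k z hz
    obtain ⟨y, hy, rfl⟩ := Multiset.mem_map.1 hz
    rw [norm_pow, h2 k y hy, hq, ← Real.rpow_natCast, ← Real.rpow_natCast,
      ← Real.rpow_mul (Nat.cast_nonneg _), ← Real.rpow_mul (Nat.cast_nonneg _), mul_comm]
  · intro κ _ _ φ e hk hc
    have h4 := h3 κ (φ.comp (algebraMap (𝓞 K) (𝓞 F))) (rdeg K w * e) (ker_comp hk) (by
      rw [hc, absNorm_rdeg (K := K) w, pow_mul])
    rw [tower_comp] at h4
    rw [h4, hqc, ← pow_mul]
    congr 1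
    refine Finset.sum_congr rfl fun k _ => ?_
    rw [Multiset.map_map]
    congr 3
    funext z
    change z ^ (rdeg K w * e) = (z ^ rdeg K w) ^ e
    rw [pow_mul]

end frob

section
variable {K₀ F : Type} [Field K₀] [Field F] [NumberField F] [Algebra K₀ F] {n : ℕ}
  {X : Set (MvPolynomial (Fin n) (𝓞 K₀))} {d i N : ℕ}

theorem one_lt_q (w : HeightOneSpectrum (𝓞 F)) : (1 : ℝ) < (Ideal.absNorm w.asIdeal : ℝ) :=
  Pool.Agent.W353.PV.one_lt_norm w

/-- uniqueness of the eigenvalues -/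
theorem frob_unique (hi : i ≤ 2 * d) {w : HeightOneSpectrum (𝓞 F)} {α α' : Fin N → ℂ}
    (h : IsFrobenius X d i w α) (h' : IsFrobenius X d i w α') (z : ℂ) :
    ∏ j, (1 - α j * z) = ∏ j, (1 - α' j * z) := by
  obtain ⟨β, h1, h2, h3⟩ := h
  obtain ⟨β', h1', h2', h3'⟩ := h'
  have h4 : β i = β' i := by
    refine Pool.Agent.W353.PV.mult_unique (D := 2 * d + 1) (one_lt_q w) h2 h2' (fun e he => ?_)
      (by omega)
    obtain ⟨κ, _, _, φ, hk, hc⟩ := Pool.Agent.W353.PV.exists_ext w e he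
    have e1 := h3 κ φ e hk hc
    rw [h3' κ φ e hk hc] at e1
    refine (mul_left_cancel₀ ?_ e1).symm
    have h4 : (1 : ℝ) < (Ideal.absNorm w.asIdeal : ℝ) ^ e := one_lt_pow₀ (one_lt_q w) (by omega)
    intro h5
    have h6 : ((Ideal.absNorm w.asIdeal : ℂ) ^ e) = 1 := sub_eq_zero.1 h5
    have h7 : ((Ideal.absNorm w.asIdeal : ℝ) ^ e) = 1 := by exact_mod_cast h6
    linarith
  rw [h1, h1'] at h4
  have h5 := congrArg (fun s : Multiset ℂ => (s.map (fun a => 1 - a * z)).prod) h4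
  simp only [Multiset.map_map] at h5
  exact h5

theorem frob_norm {w : HeightOneSpectrum (𝓞 F)} {α : Fin N → ℂ} (h : IsFrobenius X d i w α)
    (j : Fin N) : ‖α j‖ = (Ideal.absNorm w.asIdeal : ℝ) ^ ((i : ℝ) / 2) := by
  obtain ⟨β, h1, h2, h3⟩ := h
  refine h2 i (α j) ?_
  rw [h1]
  exact Multiset.mem_map_of_mem α (Finset.mem_univ j)

/-- the Euler systems -/
def IsSys (X : Set (MvPolynomial (Fin n) (𝓞 K₀))) (d i N : ℕ) {F : Type} [Field F]
    [NumberField F] [Algebra K₀ F] (B : HeightOneSpectrum (𝓞 F) → ℂ[X]) : Prop :=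
  (∀ᶠ v in cofinite, ∃ α : Fin N → ℂ, IsFrobenius X d i v α ∧
    ∀ z : ℂ, (B v).eval z = ∏ j, (1 - α j * z)) ∧ ∀ v, (B v).eval 0 = 1

/-- the value of the polynomial at `q_w^{-s}` -/
noncomputable def ev (B : HeightOneSpectrum (𝓞 F) → ℂ[X]) (w : HeightOneSpectrum (𝓞 F)) (s : ℂ) :
    ℂ := (B w).eval ((Ideal.absNorm w.asIdeal : ℂ) ^ (-s))

theorem norm_q (w : HeightOneSpectrum (𝓞 F)) (s : ℂ) :
    ‖((Ideal.absNorm w.asIdeal : ℕ) : ℂ) ^ (-s)‖ = (Ideal.absNorm w.asIdeal : ℝ) ^ (-s.re) := by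
  have h := one_lt_q w
  rw [Complex.norm_natCast_cpow_of_pos (by
    have : (0 : ℝ) < Ideal.absNorm w.asIdeal := by linarith
    exact_mod_cast this), Complex.neg_re]

theorem poly_bound {B : ℂ[X]} (hB : B.eval 0 = 1) : ∃ C : ℝ, ∀ z : ℂ, ‖z‖ ≤ 1 →
    ‖B.eval z - 1‖ ≤ C * ‖z‖ := by
  have h1 : (B - 1).eval 0 = 0 := by
    rw [Polynomial.eval_sub, hB, Polynomial.eval_one, sub_self]
  obtain ⟨Q, hQ⟩ : (Polynomial.X : ℂ[X]) ∣ B - 1 := by
    rw [Polynomial.X_dvd_iff, Polynomial.coeff_zero_eq_eval_zero, h1]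
  obtain ⟨C, hC⟩ := (isCompact_closedBall (0 : ℂ) 1).exists_bound_of_continuousOn
    (f := fun z => Q.eval z) Q.continuous.continuousOn
  refine ⟨C, fun z hz => ?_⟩
  have h2 : B.eval z - 1 = z * Q.eval z := by
    have h3 := congrArg (fun P : ℂ[X] => P.eval z) hQ
    simp only [Polynomial.eval_sub, Polynomial.eval_one, Polynomial.eval_mul, Polynomial.eval_X]
      at h3
    exact h3
  rw [h2, norm_mul, mul_comm]
  exact mul_le_mul_of_nonneg_right (hC z (by simpa using hz)) (norm_nonneg _)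

theorem prod_bound {N : ℕ} {α : Fin N → ℂ} {z : ℂ} {t : ℝ} (h : ∀ j, ‖α j * z‖ = t)
    (ht : t ≤ 1) : ‖∏ j, (1 - α j * z) - 1‖ ≤ (N * Real.exp N) * t := by
  have h1 := Finset.norm_prod_one_add_sub_one_le Finset.univ (fun j => -(α j * z))
  simp only [norm_neg, h, Finset.sum_const, Finset.card_univ, Fintype.card_fin, nsmul_eq_mul,
    ← sub_eq_add_neg] at h1
  refine h1.trans ?_
  rcases Nat.eq_zero_or_pos N with rfl | hN
  · simp
  have ht0 : 0 ≤ t := by rw [← h ⟨0, hN⟩]; exact norm_nonneg _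
  have h2 : Real.exp (N * t) - 1 ≤ (N * t) * Real.exp (N * t) := by
    have h3 := Real.add_one_le_exp (-(N * t))
    have h4 : Real.exp (-(N * t)) * Real.exp (N * t) = 1 := by
      rw [← Real.exp_add]; simp
    have h5 : 0 < Real.exp (N * t) := Real.exp_pos _
    nlinarith
  refine h2.trans ?_
  have h3 : Real.exp (N * t) ≤ Real.exp N := by
    apply Real.exp_le_exp.2
    have : (0 : ℝ) ≤ N := Nat.cast_nonneg N
    nlinarith
  have h4 : (0 : ℝ) ≤ N * t := mul_nonneg (Nat.cast_nonneg N) ht0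
  nlinarith [Real.exp_pos (N : ℝ)]

/-- **The Euler product in a right half-plane.** -/
theorem tame {B : HeightOneSpectrum (𝓞 F) → ℂ[X]} (hB : IsSys X d i N B) :
    ∃ (c : ℝ) (u : HeightOneSpectrum (𝓞 F) → ℝ), (i : ℝ) / 2 < c ∧ Summable u ∧
      (∀ w, u w ≤ 1 / 2) ∧ ∀ s : ℂ, c < s.re → ∀ w, ‖ev B w s - 1‖ ≤ u w := by
  classical
  have hbad := hB.1
  rw [eventually_cofinite] at hbad
  set S := hbad.toFinset with hS
  choose C hC using fun w => poly_bound (hB.2 w)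
  set M : ℝ := N * Real.exp N + ∑ w ∈ S, |C w| with hM
  have hM0 : 0 ≤ M := add_nonneg (mul_nonneg (Nat.cast_nonneg N) (Real.exp_pos _).le)
    (Finset.sum_nonneg fun _ _ => abs_nonneg _)
  obtain ⟨k, hk⟩ : ∃ k : ℕ, M * 2 ≤ 2 ^ k := by
    obtain ⟨k, hk⟩ := pow_unbounded_of_one_lt (M * 2) (by norm_num : (1 : ℝ) < 2)
    exact ⟨k, hk.le⟩
  set e : ℝ := k + 2 with he
  have hu1 : ∀ w : HeightOneSpectrum (𝓞 F), M * (Ideal.absNorm w.asIdeal : ℝ) ^ (-e) ≤ 1 / 2 := by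
    intro w
    have h2 : (2 : ℝ) ≤ (Ideal.absNorm w.asIdeal : ℝ) := by
      exact_mod_cast Pool.Agent.W540.BE.two_le_nm w
    have h3 : (Ideal.absNorm w.asIdeal : ℝ) ^ (-e) ≤ 2 ^ (-e) :=
      Real.rpow_le_rpow_of_nonpos (by norm_num) h2 (by rw [he]; have : (0:ℝ) ≤ k := Nat.cast_nonneg k; linarith)
    have h4 : (2 : ℝ) ^ (-e) ≤ (2 ^ k)⁻¹ := by
      rw [← Real.rpow_natCast, ← Real.rpow_neg (by norm_num)]
      apply Real.rpow_le_rpow_of_exponent_le (by norm_num)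
      rw [he]
      linarith
    have h5 : (0 : ℝ) < 2 ^ k := by positivity
    calc M * (Ideal.absNorm w.asIdeal : ℝ) ^ (-e) ≤ M * (2 ^ k)⁻¹ :=
          mul_le_mul_of_nonneg_left (h3.trans h4) hM0
      _ ≤ 1 / 2 := by
          rw [← div_eq_mul_inv, div_le_iff₀ h5]
          linarith
  refine ⟨(i : ℝ) / 2 + e, fun w => M * (Ideal.absNorm w.asIdeal : ℝ) ^ (-e), by
    rw [he]; have : (0:ℝ) ≤ k := Nat.cast_nonneg k; linarith, ?_, hu1, ?_⟩
  · apply Summable.mul_left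
    refine Pool.Agent.H921R2.TatePole.nm_summable (K := F) (x := e) ?_
    rw [he]
    have : (0:ℝ) ≤ k := Nat.cast_nonneg k
    linarith
  · intro s hs w
    have hq := one_lt_q w
    have hq0 : (0 : ℝ) < (Ideal.absNorm w.asIdeal : ℝ) := by linarith
    have hi0 : (0 : ℝ) ≤ (i : ℝ) / 2 := by positivity
    have hle : (Ideal.absNorm w.asIdeal : ℝ) ^ ((i : ℝ) / 2 - s.re) ≤
        (Ideal.absNorm w.asIdeal : ℝ) ^ (-e) :=
      Real.rpow_le_rpow_of_exponent_le hq.le (by linarith)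
    by_cases hw : w ∈ S
    · have h1 := norm_q w s
      have he0 : 0 < e := by rw [he]; have : (0:ℝ) ≤ k := Nat.cast_nonneg k; linarith
      have h2 : ‖((Ideal.absNorm w.asIdeal : ℕ) : ℂ) ^ (-s)‖ ≤ 1 := by
        rw [h1]
        exact Real.rpow_le_one_of_one_le_of_nonpos hq.le (by linarith)
      refine (hC w _ h2).trans ?_
      rw [h1]
      have h3 : (Ideal.absNorm w.asIdeal : ℝ) ^ (-s.re) ≤ (Ideal.absNorm w.asIdeal : ℝ) ^ (-e) :=
        Real.rpow_le_rpow_of_exponent_le hq.le (by linarith)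
      have h4 : C w ≤ M := by
        refine (le_abs_self _).trans ((Finset.single_le_sum (f := fun w => |C w|)
          (fun _ _ => abs_nonneg _) hw).trans ?_)
        rw [hM]
        linarith [mul_nonneg (Nat.cast_nonneg N) (Real.exp_pos (N : ℝ)).le]
      exact mul_le_mul h4 h3 (by positivity) hM0
    · have hw' : ∃ α : Fin N → ℂ, IsFrobenius X d i w α ∧
          ∀ z : ℂ, (B w).eval z = ∏ j, (1 - α j * z) := by
        by_contra hcon
        exact hw (by rw [hS, Set.Finite.mem_toFinset]; exact hcon)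
      obtain ⟨α, hα, hBw⟩ := hw'
      unfold ev
      rw [hBw]
      have h1 : ∀ j, ‖α j * ((Ideal.absNorm w.asIdeal : ℕ) : ℂ) ^ (-s)‖ =
          (Ideal.absNorm w.asIdeal : ℝ) ^ ((i : ℝ) / 2 - s.re) := by
        intro j
        rw [norm_mul, frob_norm hα j, norm_q, ← Real.rpow_add hq0]
        rfl
      have he0 : 0 < e := by rw [he]; have : (0:ℝ) ≤ k := Nat.cast_nonneg k; linarith
      refine (prod_bound h1 (Real.rpow_le_one_of_one_le_of_nonpos hq.le (by linarith))).trans ?_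
      refine mul_le_mul ?_ hle (by positivity) hM0
      rw [hM]
      linarith [Finset.sum_nonneg (s := S) (f := fun w => |C w|) fun _ _ => abs_nonneg _]

end

end Pool.Agent.Q5.VL
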