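import Pool.Agent.H26.Lib.R_pool_sql_team_seeded_3997aac3.Q5.HR.Crit

/-! General laws for properties of number fields that are compatible with Brauer relations. -/

set_option autoImplicit false
set_option linter.unusedSectionVars false

namespace Pool.Agent.Q5.VL

open NumberField Pool.Agent.W353.NF Pool.Agent.W401.Cheb Pool.Agent.Q5.BR

section
variable {K : Type} [Field K] [NumberField K]

/-- a property of the extensions of `K`, with an exponent, compatible with relations -/
structure IsLaw (P : ∀ (F : Type) [Field F] [NumberField F] [Algebra K F], ℤ → Prop) : Prop where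
  zero : ∀ (F : Type) [Field F] [NumberField F] [Algebra K F], P F 0
  add : ∀ (F : Type) [Field F] [NumberField F] [Algebra K F] (t u : ℤ), P F t → P F u → P F (t + u)
  neg : ∀ (F : Type) [Field F] [NumberField F] [Algebra K F] (t : ℤ), P F t → P F (-t)
  step : ∀ (F : Type) [Field F] [NumberField F] [Algebra K F] (ι : Type) [Fintype ι]
    (Y : ι → Ext F) [∀ j, Algebra K (Y j).F] [∀ j, IsScalarTower K F (Y j).F] (n : ι → ℤ) (m : ℤ),
    (∀ σ : GK F, ∑ j, n j * (fixn F (Y j).F σ : ℤ) = m) → ∀ t : ℤ,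
    (∀ j, P (Y j).F t) → P F (m * t)

variable {P : ∀ (F : Type) [Field F] [NumberField F] [Algebra K F], ℤ → Prop}

/-- **Wide families.** -/
theorem wide_law {𝓕 : Set (IntermediateField K (AlgebraicClosure K))} (hF : HR.Wide 𝓕) :
    ∃ m : ℕ, 0 < m ∧
      ∀ P : (∀ (F : Type) [Field F] [NumberField F] [Algebra K F], ℤ → Prop), IsLaw P →
      ∀ t : ℤ, (∀ F ∈ 𝓕, ∀ [NumberField F], P F t) → P K (m * t) := by
  obtain ⟨ι, _, F, nn, m, hm, hFj, hrel⟩ := HR.wide_relation hF
  refine ⟨m, hm, fun P hP t h => ?_⟩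
  have hfd : ∀ j, FiniteDimensional K (F j) := fun j => hF.1 _ (hFj j)
  have hnf : ∀ j, NumberField (F j) := fun j => NumberField.of_module_finite K _
  let Y : ι → Ext K := fun j => @Ext.mk K _ _ (F j) _ (hnf j) _
  exact hP.step K ι Y nn m hrel t (fun j => h (F j) (hFj j))

theorem one_of_gcd (hP : IsLaw P) (F : Type) [Field F] [NumberField F] [Algebra K F] {D : Set ℕ}
    (hD : ∀ g : ℕ, (∀ d ∈ D, g ∣ d) → g = 1) (h : ∀ d ∈ D, P F (d : ℤ)) : P F 1 := by
  let G : AddSubgroup ℤ :=
    { carrier := {t | P F t}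
      zero_mem' := hP.zero F
      add_mem' := fun ht hu => hP.add F _ _ ht hu
      neg_mem' := fun ht => hP.neg F _ ht }
  obtain ⟨g, hg⟩ := Int.subgroup_cyclic G
  rw [← AddSubgroup.zmultiples_eq_closure] at hg
  have h1 : g.natAbs = 1 := by
    apply hD
    intro d hd
    have h2 : (d : ℤ) ∈ G := h d hd
    rw [hg, Int.mem_zmultiples_iff] at h2
    rwa [← Int.natCast_dvd_natCast, Int.natCast_natAbs, abs_dvd]
  have h3 : (1 : ℤ) ∈ G := by
    rw [hg, Int.mem_zmultiples_iff]
    rcases Int.natAbs_eq g with h4 | h4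
    · rw [h4, h1]; norm_num
    · rw [h4, h1]; norm_num
  exact h3

/-- **The power law.** -/
theorem gen_power_law (hP : IsLaw P) {M : ℕ}
    (h : ∀ (F : Type) [Field F] [NumberField F] [Algebra K F], M ∣ Module.finrank K F → P F 1)
    (c : ℕ) : ∀ (F : Type) [Field F] [NumberField F] [Algebra K F],
      M ∣ Module.finrank K F * c → P F (c : ℤ) := by
  classical
  induction c using Nat.strong_induction_on with
  | _ c ih =>
    intro F _ _ _ hM
    rcases Nat.eq_zero_or_pos c with rfl | hc
    · rw [Nat.cast_zero]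
      exact hP.zero F
    rcases Nat.eq_or_lt_of_le (Nat.succ_le_of_lt hc) with h1 | h1
    · have hc1 : c = 1 := h1.symm
      subst hc1
      rw [mul_one] at hM
      rw [Nat.cast_one]
      exact h F hM
    · obtain ⟨p, hp, c', rfl⟩ := Nat.exists_prime_and_dvd (show c ≠ 1 by omega)
      have hpf : Fact p.Prime := ⟨hp⟩
      have hc' : 0 < c' := Nat.pos_of_mul_pos_left hc
      have hlt : c' < p * c' := by
        have := hp.two_le
        nlinarith
      have hinf : {l : ℕ | l.Prime}.Infinite := Nat.infinite_setOfPred_prime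
      obtain ⟨ι, _, Y, nn, hdeg, -, hrel⟩ := exists_relation F p (T := {l : ℕ | l.Prime})
        (fun l hl => hl) hinf
      let _ : ∀ j, Algebra K (Y j).F := fun j =>
        ((algebraMap F (Y j).F).comp (algebraMap K F)).toAlgebra
      have : ∀ j, IsScalarTower K F (Y j).F := fun j =>
        IsScalarTower.of_algebraMap_eq fun x => rfl
      have h6 : ((p * c' : ℕ) : ℤ) = (p : ℤ) * (c' : ℤ) := by push_cast; rfl
      rw [h6]
      refine hP.step F ι Y nn p hrel (c' : ℤ) (fun j => ?_)
      have h3 : M ∣ Module.finrank K (Y j).F * c' := by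
        rw [← Module.finrank_mul_finrank K F (Y j).F]
        rcases hdeg j with h4 | h4
        · rw [h4, mul_assoc]
          exact hM
        · rw [h4, sq, mul_assoc, mul_assoc, mul_left_comm]
          exact hM.mul_left p
      exact ih c' hlt (Y j).F h3

theorem gen_power_law' (hP : IsLaw P) {M : ℕ}
    (h : ∀ (F : Type) [Field F] [NumberField F] [Algebra K F], M ∣ Module.finrank K F → P F 1)
    (F : Type) [Field F] [NumberField F] [Algebra K F] :
    P F ((M / M.gcd (Module.finrank K F) : ℕ) : ℤ) := by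
  refine gen_power_law hP (M := M) h (M / M.gcd (Module.finrank K F)) F ?_
  refine ⟨Module.finrank K F / M.gcd (Module.finrank K F), ?_⟩
  rw [← Nat.mul_div_assoc _ (Nat.gcd_dvd_left _ _), ← Nat.mul_div_assoc _
    (Nat.gcd_dvd_right _ _), mul_comm]

/-- **The law for the degrees.** -/
theorem gen_sparse_law (hP : IsLaw P) {D : Set ℕ}
    (hD : ∀ d ∈ D, ∀ n : ℕ, 0 < n → d * n ∈ D) (hD' : ∀ g : ℕ, (∀ d ∈ D, g ∣ d) → g = 1)
    (h : ∀ (F : Type) [Field F] [NumberField F] [Algebra K F], Module.finrank K F ∈ D → P F 1)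
    (F : Type) [Field F] [NumberField F] [Algebra K F] : P F 1 := by
  refine one_of_gcd hP F hD' fun d hd => ?_
  refine gen_power_law hP (M := d) ?_ d F (dvd_mul_left _ _)
  intro F' _ _ _ hdv
  obtain ⟨n, hn⟩ := hdv
  refine h F' ?_
  rw [hn]
  refine hD d hd n (Nat.pos_of_ne_zero ?_)
  rintro rfl
  rw [mul_zero] at hn
  exact (Module.finrank_pos (R := K) (M := F')).ne' hn

/-- **The law for radical extensions.** -/
theorem gen_radical_law (hP : IsLaw P) (p : ℕ) [hp : Fact p.Prime] {T : Set ℕ}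
    (hpr : ∀ l ∈ T, l.Prime) (hinf : T.Infinite) (k : ℕ)
    (h : ∀ (F : Type) [Field F] [NumberField F] [Algebra K F], IsRadical T p K F →
      p ^ k ∣ Module.finrank K F → P F 1) (t : ℕ) :
    ∀ (F : Type) [Field F] [NumberField F] [Algebra K F], IsRadical T p K F →
      p ^ k ∣ Module.finrank K F * p ^ t → P F ((p ^ t : ℕ) : ℤ) := by
  classical
  induction t with
  | zero =>
    intro F _ _ _ hr hM
    rw [pow_zero, mul_one] at hM
    rw [pow_zero, Nat.cast_one]
    exact h F hr hM
  | succ t ih =>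
    intro F _ _ _ hr hM
    obtain ⟨ι, _, Y, nn, hdeg, hrad, hrel⟩ := exists_relation F p hpr hinf
    let _ : ∀ j, Algebra K (Y j).F := fun j =>
      ((algebraMap F (Y j).F).comp (algebraMap K F)).toAlgebra
    have : ∀ j, IsScalarTower K F (Y j).F := fun j =>
      IsScalarTower.of_algebraMap_eq fun x => rfl
    have h6 : ((p ^ (t + 1) : ℕ) : ℤ) = (p : ℤ) * ((p ^ t : ℕ) : ℤ) := by push_cast; ring
    rw [h6]
    refine hP.step F ι Y nn p hrel ((p ^ t : ℕ) : ℤ) (fun j => ?_)
    have h3 : p ^ k ∣ Module.finrank K (Y j).F * p ^ t := by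
      rw [← Module.finrank_mul_finrank K F (Y j).F]
      rw [pow_succ'] at hM
      rcases hdeg j with h4 | h4
      · rw [h4, mul_assoc]
        exact hM
      · rw [h4, sq, mul_assoc, mul_assoc, mul_left_comm]
        exact hM.mul_left p
    exact ih (Y j).F (hr.trans (hrad j)) h3

theorem gen_radical_law' (hP : IsLaw P) (p : ℕ) [hp : Fact p.Prime] {T : Set ℕ}
    (hpr : ∀ l ∈ T, l.Prime) (hinf : T.Infinite) (k : ℕ)
    (h : ∀ (F : Type) [Field F] [NumberField F] [Algebra K F], IsRadical T p K F →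
      p ^ k ∣ Module.finrank K F → P F 1) : P K ((p ^ k : ℕ) : ℤ) :=
  gen_radical_law hP p hpr hinf k h k K (isRadical_self T p K) (dvd_mul_left _ _)

/-- a property that is compatible with relations, without exponent -/
theorem isLaw_of_exact {Q : ∀ (F : Type) [Field F] [NumberField F] [Algebra K F], Prop}
    (h : ∀ (F : Type) [Field F] [NumberField F] [Algebra K F] (ι : Type) [Fintype ι]
      (Y : ι → Ext F) [∀ j, Algebra K (Y j).F] [∀ j, IsScalarTower K F (Y j).F] (n : ι → ℤ) (m : ℤ),
      (∀ σ : GK F, ∑ j, n j * (fixn F (Y j).F σ : ℤ) = m) → m ≠ 0 →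
      (∀ j, Q (Y j).F) → Q F) : IsLaw (K := K) (fun F _ _ _ t => t ≠ 0 → Q F) where
  zero := fun F _ _ _ h => absurd rfl h
  add := by
    intro F _ _ _ t u ht hu htu
    by_cases h0 : t = 0
    · refine hu fun h1 => htu ?_
      rw [h0, h1, add_zero]
    · exact ht h0
  neg := fun F _ _ _ t ht h0 => ht fun h1 => h0 (by rw [h1, neg_zero])
  step := by
    intro F _ _ _ ι _ Y _ _ n m hrel t hj hmt
    exact h F ι Y n m hrel (left_ne_zero_of_mul hmt) fun j => hj j (right_ne_zero_of_mul hmt)

end

end Pool.Agent.Q5.VL
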