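import Pool.Agent.H26.Lib.R_pool_sql_team_seeded_3997aac3.Q5.VL.Law
import Pool.Agent.H26.Lib.R_pool_sql_team_seeded_3997aac3.Q5.VL.Up

/-! Orders at the edge of the L-functions of projective varieties over the fields in a relation. -/

set_option autoImplicit false
set_option linter.unusedSectionVars false

namespace Pool.Agent.Q5.VL

open NumberField IsDedekindDomain Filter Topology Polynomial Pool.Agent.W353.NF
  Pool.Agent.W401.Cheb Pool.Agent.Q5.BR
open Pool.Agent.W353.EF (IsFrobenius LFun cone)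

section
variable {F : Type} [Field F] [NumberField F]

/-- absolute convergence, all factors different from zero -/
def Good (B : HeightOneSpectrum (𝓞 F) → ℂ[X]) (s : ℂ) : Prop :=
  Summable (fun w => el B w s) ∧ ∀ w, ev B w s ≠ 0

theorem Good.exp_el {B : HeightOneSpectrum (𝓞 F) → ℂ[X]} {s : ℂ} (h : Good B s)
    (w : HeightOneSpectrum (𝓞 F)) : Complex.exp (el B w s) = (ev B w s)⁻¹ := by
  unfold el
  rw [Complex.exp_neg, Complex.exp_log (h.2 w)]

theorem Good.LFun_exp {B : HeightOneSpectrum (𝓞 F) → ℂ[X]} {s : ℂ} (h : Good B s) :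
    LFun B s = Complex.exp (∑' w, el B w s) := by
  rw [← h.1.hasSum.cexp.tprod_eq]
  refine tprod_congr fun w => ?_
  change (ev B w s)⁻¹ = Complex.exp (el B w s)
  rw [h.exp_el]

theorem Good.ne_zero {B : HeightOneSpectrum (𝓞 F) → ℂ[X]} {s : ℂ} (h : Good B s) :
    LFun B s ≠ 0 := by
  rw [h.LFun_exp]
  exact Complex.exp_ne_zero _

end

section
variable {K₀ K : Type} [Field K₀] [Field K] [NumberField K] [Algebra K₀ K] {n : ℕ}
  {X : Set (MvPolynomial (Fin n) (𝓞 K₀))} {d i N : ℕ}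

/-- the Euler factors at almost all places -/
def AE (X : Set (MvPolynomial (Fin n) (𝓞 K₀))) (d i N : ℕ) {F : Type} [Field F]
    [NumberField F] [Algebra K₀ F] (B : HeightOneSpectrum (𝓞 F) → ℂ[X]) : Prop :=
  ∀ᶠ v in cofinite, ∃ α : Fin N → ℂ, IsFrobenius X d i v α ∧
    ∀ z : ℂ, (B v).eval z = ∏ j, (1 - α j * z)

theorem ev_good {v : HeightOneSpectrum (𝓞 K)} {B : HeightOneSpectrum (𝓞 K) → ℂ[X]}
    (h : ∃ α : Fin N → ℂ, IsFrobenius X d i v α ∧
      ∀ z : ℂ, (B v).eval z = ∏ j, (1 - α j * z)) {s : ℂ} (hs : (i : ℝ) / 2 < s.re) :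
    ev B v s ≠ 0 ∧ ‖ev B v s - 1‖ ≤
      (N * Real.exp N) * (Ideal.absNorm v.asIdeal : ℝ) ^ (-(s.re - (i : ℝ) / 2)) := by
  obtain ⟨α, hα, hBw⟩ := h
  have hq := one_lt_q v
  have hq0 : (0 : ℝ) < (Ideal.absNorm v.asIdeal : ℝ) := by linarith
  have h1 : ∀ j, ‖α j * ((Ideal.absNorm v.asIdeal : ℕ) : ℂ) ^ (-s)‖ =
      (Ideal.absNorm v.asIdeal : ℝ) ^ (-(s.re - (i : ℝ) / 2)) := by
    intro j
    rw [norm_mul, frob_norm hα j, norm_q, ← Real.rpow_add hq0]
    congr 1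
    ring
  have h2 : (Ideal.absNorm v.asIdeal : ℝ) ^ (-(s.re - (i : ℝ) / 2)) < 1 :=
    Real.rpow_lt_one_of_one_lt_of_neg hq (by linarith)
  unfold ev
  rw [hBw]
  refine ⟨?_, prod_bound h1 h2.le⟩
  rw [Finset.prod_ne_zero_iff]
  intro j _ h0
  have h3 := congrArg (fun z : ℂ => ‖z‖) (sub_eq_zero.1 h0)
  simp only [norm_one] at h3
  rw [h1 j] at h3
  exact h2.ne h3.symm

theorem good_right {B : HeightOneSpectrum (𝓞 K) → ℂ[X]} (hB : AE X d i N B) {s : ℂ}
    (hs : (i : ℝ) / 2 + 1 < s.re) (h0 : ∀ w, ev B w s ≠ 0) : Good B s := by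
  refine ⟨?_, h0⟩
  have hsum : Summable fun w : HeightOneSpectrum (𝓞 K) =>
      (N * Real.exp N) * (Ideal.absNorm w.asIdeal : ℝ) ^ (-(s.re - (i : ℝ) / 2)) :=
    (Pool.Agent.H921R2.TatePole.nm_summable (K := K) (x := s.re - (i : ℝ) / 2)
      (by linarith)).mul_left _
  refine Summable.of_norm_bounded_eventually (hsum.mul_left (3 / 2)) ?_
  have h1 : ∀ᶠ w : HeightOneSpectrum (𝓞 K) in cofinite,
      (N * Real.exp N) * (Ideal.absNorm w.asIdeal : ℝ) ^ (-(s.re - (i : ℝ) / 2)) < 1 / 2 :=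
    hsum.tendsto_cofinite_zero.eventually (gt_mem_nhds (by norm_num))
  have hB' : ∀ᶠ v in cofinite, ∃ α : Fin N → ℂ, IsFrobenius X d i v α ∧
    ∀ z : ℂ, (B v).eval z = ∏ j, (1 - α j * z) := hB
  filter_upwards [h1, hB'] with w hw hw'
  have h2 := (ev_good hw' (s := s) (by linarith)).2
  exact norm_el hw.le h2

/-- near the point on the edge -/
theorem good_near {B : HeightOneSpectrum (𝓞 K) → ℂ[X]} (hB : AE X d i N B) {s₀ : ℂ}
    (hs₀ : (i : ℝ) / 2 < s₀.re) (h0 : ∀ w, ev B w s₀ ≠ 0) :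
    ∀ᶠ s in 𝓝 s₀, ∀ w, ev B w s ≠ 0 := by
  classical
  have hbad : {w : HeightOneSpectrum (𝓞 K) | ¬ ∃ α : Fin N → ℂ, IsFrobenius X d i w α ∧
      ∀ z : ℂ, (B w).eval z = ∏ j, (1 - α j * z)}.Finite := by
    have := hB
    unfold AE at this
    rwa [eventually_cofinite] at this
  have h1 : ∀ᶠ s in 𝓝 s₀, ∀ w ∈ {w : HeightOneSpectrum (𝓞 K) | ¬ ∃ α : Fin N → ℂ,
      IsFrobenius X d i w α ∧ ∀ z : ℂ, (B w).eval z = ∏ j, (1 - α j * z)}, ev B w s ≠ 0 := by
    rw [hbad.eventually_all]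
    intro w _
    exact (differentiable_ev B w).continuous.continuousAt.eventually_ne (h0 w)
  have h2 : ∀ᶠ s : ℂ in 𝓝 s₀, (i : ℝ) / 2 < s.re :=
    Complex.continuous_re.continuousAt.eventually (lt_mem_nhds hs₀)
  filter_upwards [h1, h2] with s hs hs2 w
  by_cases hw : ∃ α : Fin N → ℂ, IsFrobenius X d i w α ∧
      ∀ z : ℂ, (B w).eval z = ∏ j, (1 - α j * z)
  · exact (ev_good hw hs2).1
  · exact hs w hw

/-- **The power of the L-function in a relation.** -/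
theorem sys_pow_good {ι : Type} [Fintype ι] {Y : ι → Ext K} [∀ j, Algebra K₀ (Y j).F]
    [∀ j, IsScalarTower K₀ K (Y j).F]
    {n : ι → ℤ} {m : ℤ} (h : ∀ σ : GK K, ∑ j, n j * (fixn K (Y j).F σ : ℤ) = m)
    (hi : i ≤ 2 * d) {B₀ : HeightOneSpectrum (𝓞 K) → ℂ[X]} (hB₀ : AE X d i N B₀)
    {B : ∀ j, HeightOneSpectrum (𝓞 (Y j).F) → ℂ[X]} (hB : ∀ j, AE X d i N (B j)) :
    ∃ S : Finset (HeightOneSpectrum (𝓞 K)), ∀ s : ℂ, Good B₀ s → (∀ j, Good (B j) s) →
      (LFun B₀ s) ^ m = RF n m B₀ B S s * ∏ j, (LFun (B j) s) ^ (n j) := by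
  classical
  let Y' : Option ι → Ext K := fun o => o.elim (Ext.mk K) Y
  let n' : Option ι → ℤ := fun o => o.elim (-m) n
  have hrel : Rel Y' n' := by
    intro σ
    rw [Fintype.sum_option]
    change (-m) * (fixn K K σ : ℤ) + ∑ j, n j * (fixn K (Y j).F σ : ℤ) = 0
    rw [h σ, fixn_self]
    push_cast
    ring
  obtain ⟨S₀, hS₀⟩ := euler_rel hrel
  have hb0 : {w : HeightOneSpectrum (𝓞 K) | ¬ ∃ α : Fin N → ℂ, IsFrobenius X d i w α ∧
      ∀ z : ℂ, (B₀ w).eval z = ∏ j, (1 - α j * z)}.Finite := by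
    have := hB₀
    unfold AE at this
    rwa [eventually_cofinite] at this
  have hbj : ∀ j, {w : HeightOneSpectrum (𝓞 (Y j).F) | ¬ ∃ α : Fin N → ℂ, IsFrobenius X d i w α ∧
      ∀ z : ℂ, (B j w).eval z = ∏ j, (1 - α j * z)}.Finite := by
    intro j
    have := hB j
    unfold AE at this
    rwa [eventually_cofinite] at this
  have hbj' : ∀ j, ((fun w : HeightOneSpectrum (𝓞 (Y j).F) => w.under (𝓞 K)) ''
      {w | ¬ ∃ α : Fin N → ℂ, IsFrobenius X d i w α ∧
        ∀ z : ℂ, (B j w).eval z = ∏ k, (1 - α k * z)}).Finite := fun j => (hbj j).image _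
  set S : Finset (HeightOneSpectrum (𝓞 K)) := S₀ ∪ hb0.toFinset ∪
    Finset.univ.biUnion fun j => (hbj' j).toFinset with hS
  refine ⟨S, fun s hg₀ hgj => ?_⟩
  let ℓ : ∀ o : Option ι, HeightOneSpectrum (𝓞 (Y' o).F) → ℂ := fun o => match o with
    | none => fun w => el B₀ w s
    | some j => fun w => el (B j) w s
  have hv : ∀ v : HeightOneSpectrum (𝓞 K), v ∉ S → ∃ α : Fin N → ℂ, IsFrobenius X d i v α ∧
      ∀ z : ℂ, (B₀ v).eval z = ∏ k, (1 - α k * z) := by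
    intro v hv
    by_contra hcon
    apply hv
    rw [hS]
    apply Finset.mem_union_left
    apply Finset.mem_union_right
    rw [Set.Finite.mem_toFinset]
    exact hcon
  have key0 : ∀ w : HeightOneSpectrum (𝓞 K), w.under (𝓞 K) ∉ S →
      el B₀ w s = lam X d i N (w.under (𝓞 K)) (rdeg K w) s := by
    intro w hw
    have h2 : w.under (𝓞 K) = w := by
      apply HeightOneSpectrum.ext
      change w.asIdeal.comap (algebraMap (𝓞 K) (𝓞 K)) = w.asIdeal
      exact Ideal.comap_id _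
    have h3 := hv _ hw
    refine el_eq (K := K) hi ?_ (h3.imp fun α hα => hα.1) s
    rwa [h2] at h3
  have keyj : ∀ (j : ι) (w : HeightOneSpectrum (𝓞 (Y j).F)), w.under (𝓞 K) ∉ S →
      el (B j) w s = lam X d i N (w.under (𝓞 K)) (rdeg K w) s := by
    intro j w hw
    refine el_eq (K := K) hi ?_ ((hv _ hw).imp fun α hα => hα.1) s
    by_contra hcon
    apply hw
    rw [hS]
    apply Finset.mem_union_right
    rw [Finset.mem_biUnion]
    refine ⟨j, Finset.mem_univ j, ?_⟩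
    rw [Set.Finite.mem_toFinset]
    exact ⟨w, hcon, rfl⟩
  have h1 := hS₀ S (by
      intro v hv
      rw [hS]
      exact Finset.mem_union_left _ (Finset.mem_union_left _ hv)) ℓ
    (fun v f => lam X d i N v f s) (by
      rintro (_ | j)
      · exact hg₀.1
      · exact (hgj j).1) (by
      rintro (_ | j) w hw
      · exact key0 w hw
      · exact keyj j w hw)
  have h2 := congrArg Complex.exp h1
  rw [Complex.exp_sum, Complex.exp_sum, Fintype.prod_option] at h2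
  have h3 : Complex.exp ((n' none : ℂ) * ∑' w, ℓ none w) = (LFun B₀ s) ^ (-m) := by
    change Complex.exp (((-m : ℤ) : ℂ) * ∑' w, el B₀ w s) = _
    rw [Complex.exp_int_mul, ← hg₀.LFun_exp]
  have h4 : ∀ j, Complex.exp ((n' (some j) : ℂ) * ∑' w, ℓ (some j) w) = (LFun (B j) s) ^ (n j) := by
    intro j
    change Complex.exp (((n j : ℤ) : ℂ) * ∑' w, el (B j) w s) = _
    rw [Complex.exp_int_mul, ← (hgj j).LFun_exp]
  have h5 : ∀ v : HeightOneSpectrum (𝓞 K),
      Complex.exp (∑ o, (n' o : ℂ) * ∑ w ∈ above (Y' o).F v, ℓ o w) =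
      (∏ w ∈ above K v, (ev B₀ w s)⁻¹) ^ (-m) *
        ∏ j, (∏ w ∈ above (Y j).F v, (ev (B j) w s)⁻¹) ^ (n j) := by
    intro v
    rw [Complex.exp_sum, Fintype.prod_option]
    congr 1
    · change Complex.exp (((-m : ℤ) : ℂ) * ∑ w ∈ above K v, el B₀ w s) = _
      rw [Complex.exp_int_mul, Complex.exp_sum, Finset.prod_congr rfl fun w _ => hg₀.exp_el w]
    · refine Finset.prod_congr rfl fun j _ => ?_
      change Complex.exp (((n j : ℤ) : ℂ) * ∑ w ∈ above (Y j).F v, el (B j) w s) = _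
      rw [Complex.exp_int_mul, Complex.exp_sum,
        Finset.prod_congr rfl fun w _ => (hgj j).exp_el w]
  rw [h3, Finset.prod_congr rfl fun j _ => h4 j, Finset.prod_congr rfl fun v _ => h5 v] at h2
  have hne : LFun B₀ s ≠ 0 := hg₀.ne_zero
  have h6 : RF n m B₀ B S s = (∏ v ∈ S, ((∏ w ∈ above K v, (ev B₀ w s)⁻¹) ^ (-m) *
        ∏ j, (∏ w ∈ above (Y j).F v, (ev (B j) w s)⁻¹) ^ (n j)))⁻¹ := by
    unfold RF
    rw [← Finset.prod_inv_distrib]
    refine Finset.prod_congr rfl fun v _ => ?_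
    rw [mul_inv, ← zpow_neg, neg_neg, ← Finset.prod_inv_distrib]
    congr 1
    refine Finset.prod_congr rfl fun j _ => ?_
    rw [zpow_neg]
  rw [h6, ← h2, mul_inv, ← zpow_neg, neg_neg, mul_assoc, inv_mul_cancel₀, mul_one]
  exact Finset.prod_ne_zero_iff.2 fun j _ => zpow_ne_zero _ (hgj j).ne_zero

/-- the finite part near a point where no factor vanishes -/
theorem RF_analytic {ι : Type} [Fintype ι] {Y : ι → Ext K} (n : ι → ℤ) (m : ℤ)
    {B₀ : HeightOneSpectrum (𝓞 K) → ℂ[X]} {B : ∀ j, HeightOneSpectrum (𝓞 (Y j).F) → ℂ[X]}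
    (S : Finset (HeightOneSpectrum (𝓞 K))) {s : ℂ} (h0 : ∀ w, ev B₀ w s ≠ 0)
    (hj : ∀ j w, ev (B j) w s ≠ 0) : AnalyticAt ℂ (RF n m B₀ B S) s ∧ RF n m B₀ B S s ≠ 0 := by
  have hm : ∀ (F : Type) [Field F] [NumberField F] (B : HeightOneSpectrum (𝓞 F) → ℂ[X])
      (w : HeightOneSpectrum (𝓞 F)), ev B w s ≠ 0 →
      AnalyticAt ℂ (fun s => (ev B w s)⁻¹) s :=
    fun F _ _ B w h => ((differentiable_ev B w).analyticAt s).inv h
  constructor
  · unfold RF
    refine Finset.analyticAt_fun_prod _ fun v _ => ?_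
    refine AnalyticAt.mul ?_ (Finset.analyticAt_fun_prod _ fun j _ => ?_)
    · refine AnalyticAt.fun_zpow (Finset.analyticAt_fun_prod _ fun w _ => hm _ _ _ (h0 w)) ?_
      exact Finset.prod_ne_zero_iff.2 fun w _ => inv_ne_zero (h0 w)
    · refine AnalyticAt.fun_zpow (Finset.analyticAt_fun_prod _ fun w _ => hm _ _ _ (hj j w)) ?_
      exact Finset.prod_ne_zero_iff.2 fun w _ => inv_ne_zero (hj j w)
  · unfold RF
    refine Finset.prod_ne_zero_iff.2 fun v _ => mul_ne_zero (zpow_ne_zero _ ?_)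
      (Finset.prod_ne_zero_iff.2 fun j _ => zpow_ne_zero _ ?_)
    · exact Finset.prod_ne_zero_iff.2 fun w _ => inv_ne_zero (h0 w)
    · exact Finset.prod_ne_zero_iff.2 fun w _ => inv_ne_zero (hj j w)

end

end Pool.Agent.Q5.VL
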