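import Pool.Agent.H26.Lib.R_pool_sql_team_seeded_3997aac3.Q5.VL.Edge

/-! Orders at the edge of the L-functions of projective varieties over the fields in a relation. -/

set_option autoImplicit false
set_option linter.unusedSectionVars false

namespace Pool.Agent.Q5.VL

open NumberField IsDedekindDomain Filter Topology Polynomial Pool.Agent.W353.NF
  Pool.Agent.W401.Cheb Pool.Agent.Q5.BR
open Pool.Agent.W353.EF (IsFrobenius LFun cone size IsEulerSystem)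

/-- the size of a meromorphic function -/
theorem size_of_order {f : ℂ → ℂ} {s₀ : ℂ} {k : ℤ} (hf : MeromorphicAt f s₀)
    (hk : meromorphicOrderAt f s₀ = k) :
    Tendsto (fun ε : ℝ => Real.log ‖f (s₀ + ε)‖ / Real.log (1 / ε)) (𝓝[>] 0) (𝓝 (-(k : ℝ))) := by
  obtain ⟨g, hg, hg0, hfg⟩ := (meromorphicOrderAt_eq_int_iff hf).1 hk
  have h1 : Tendsto (fun ε : ℝ => s₀ + (ε : ℂ)) (𝓝[>] 0) (𝓝[≠] s₀) := by
    rw [tendsto_nhdsWithin_iff]
    constructor
    · have h2 : Continuous fun ε : ℝ => s₀ + (ε : ℂ) := by fun_prop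
      have h3 := h2.tendsto 0
      simp only [Complex.ofReal_zero, add_zero] at h3
      exact h3.mono_left nhdsWithin_le_nhds
    · filter_upwards [self_mem_nhdsWithin] with ε hε
      have hε' : (0 : ℝ) < ε := hε
      simp [hε'.ne']
  have h2 : Tendsto (fun ε : ℝ => Real.log ‖g (s₀ + ε)‖) (𝓝[>] 0) (𝓝 (Real.log ‖g s₀‖)) := by
    have h3 : Tendsto (fun ε : ℝ => g (s₀ + ε)) (𝓝[>] 0) (𝓝 (g s₀)) :=
      hg.continuousAt.tendsto.comp (h1.mono_right nhdsWithin_le_nhds)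
    exact (h3.norm).log (norm_ne_zero_iff.2 hg0)
  have h3 : Tendsto (fun ε : ℝ => Real.log (1 / ε)) (𝓝[>] 0) atTop := by
    have h4 := Real.tendsto_log_nhdsGT_zero
    have h5 := tendsto_neg_atBot_atTop.comp h4
    refine h5.congr fun ε => ?_
    simp
  have h4 : Tendsto (fun ε : ℝ => Real.log ‖g (s₀ + ε)‖ / Real.log (1 / ε) - (k : ℝ)) (𝓝[>] 0)
      (𝓝 (0 - (k : ℝ))) := (h2.div_atTop h3).sub_const _
  rw [zero_sub] at h4
  refine h4.congr' ?_
  have h5 := h1.eventually hfg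
  have h6 : ∀ᶠ ε : ℝ in 𝓝[>] 0, ε < 1 := by
    filter_upwards [nhdsWithin_le_nhds (gt_mem_nhds (show (0:ℝ) < 1 by norm_num))] with ε hε
    exact hε
  have h7 : ∀ᶠ ε : ℝ in 𝓝[>] 0, g (s₀ + ε) ≠ 0 :=
    (h1.mono_right nhdsWithin_le_nhds).eventually (hg.continuousAt.eventually_ne hg0)
  filter_upwards [h5, self_mem_nhdsWithin, h6, h7] with ε hε hε0 hε1 hεg
  have hε0' : (0 : ℝ) < ε := hε0
  rw [hε, add_sub_cancel_left, smul_eq_mul, norm_mul, norm_zpow, Complex.norm_real,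
    Real.norm_of_nonneg hε0'.le, Real.log_mul (zpow_ne_zero _ hε0'.ne') (norm_ne_zero_iff.2 hεg),
    Real.log_zpow]
  have h8 : Real.log (1 / ε) = -Real.log ε := by simp
  have h9 : Real.log ε ≠ 0 := (Real.log_neg hε0' hε1).ne
  rw [h8]
  field_simp
  ring

section
variable {K₀ K : Type} [Field K₀] [Field K] [NumberField K] [Algebra K₀ K] {n : ℕ}
  {X : Set (MvPolynomial (Fin n) (𝓞 K₀))} {d i N : ℕ}

/-- the point on the edge -/
noncomputable def ed (i : ℕ) : ℂ := (i : ℂ) / 2 + 1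

theorem ed_re (i : ℕ) : (ed i).re = (i : ℝ) / 2 + 1 := by
  unfold ed
  have : ((i : ℂ) / 2) = (((i : ℝ) / 2 : ℝ) : ℂ) := by push_cast; rfl
  rw [this, Complex.add_re, Complex.ofReal_re, Complex.one_re]

theorem es_iff {F : Type} [Field F] [NumberField F] [Algebra K₀ F]
    {B : HeightOneSpectrum (𝓞 F) → ℂ[X]} :
    IsEulerSystem X d i N B ↔ AE X d i N B ∧ ∀ w, ev B w (ed i) ≠ 0 := by
  unfold IsEulerSystem AE ev ed
  rfl

/-- Euler systems over an extension field -/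
theorem exists_es_up {B₀ : HeightOneSpectrum (𝓞 K) → ℂ[X]} (hB₀ : AE X d i N B₀)
    (F : Type) [Field F] [NumberField F] [Algebra K₀ F] [Algebra K F] [IsScalarTower K₀ K F] :
    ∃ B : HeightOneSpectrum (𝓞 F) → ℂ[X], IsSys X d i N B ∧
      ∀ w, ∀ s : ℂ, (i : ℝ) / 2 < s.re → ev B w s ≠ 0 := by
  classical
  refine exists_sys_up (K := K) (X := X) (d := d) (i := i) (N := N)
    (B₀ := fun v => if ∃ α : Fin N → ℂ, IsFrobenius X d i v α ∧
      ∀ z : ℂ, (B₀ v).eval z = ∏ j, (1 - α j * z) then B₀ v else 1) ⟨?_, fun v => ?_⟩ F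
  · have h : ∀ᶠ v in cofinite, ∃ α : Fin N → ℂ, IsFrobenius X d i v α ∧
      ∀ z : ℂ, (B₀ v).eval z = ∏ j, (1 - α j * z) := hB₀
    filter_upwards [h] with v hv
    beta_reduce
    rw [if_pos hv]
    exact hv
  · beta_reduce
    split_ifs with h
    · obtain ⟨α, -, h2⟩ := h
      rw [h2]
      simp
    · simp

theorem es_up {B₀ : HeightOneSpectrum (𝓞 K) → ℂ[X]} (hB₀ : AE X d i N B₀)
    (F : Type) [Field F] [NumberField F] [Algebra K₀ F] [Algebra K F] [IsScalarTower K₀ K F] :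
    ∃ B : HeightOneSpectrum (𝓞 F) → ℂ[X], IsEulerSystem X d i N B := by
  obtain ⟨B, hB, h⟩ := exists_es_up hB₀ F
  exact ⟨B, es_iff.2 ⟨hB.1, fun w => h w _ (by rw [ed_re]; linarith)⟩⟩

theorem es_good {F : Type} [Field F] [NumberField F] [Algebra K₀ F]
    {B : HeightOneSpectrum (𝓞 F) → ℂ[X]} (hB : IsEulerSystem X d i N B) :
    ∀ᶠ s in 𝓝 (ed i), (i : ℝ) / 2 + 1 < s.re → Good B s := by
  rw [es_iff] at hB
  filter_upwards [good_near hB.1 (s₀ := ed i) (by rw [ed_re]; linarith) hB.2] with s hs hs'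
  exact good_right hB.1 hs' hs

theorem tends_ed (i : ℕ) : Tendsto (fun ε : ℝ => (i : ℂ) / 2 + 1 + ε) (𝓝[>] 0)
    (𝓝[{s : ℂ | (i : ℝ) / 2 + 1 < s.re}] (ed i)) := by
  rw [tendsto_nhdsWithin_iff]
  constructor
  · have h2 : Continuous fun ε : ℝ => (i : ℂ) / 2 + 1 + (ε : ℂ) := by fun_prop
    have h3 := h2.tendsto 0
    simp only [Complex.ofReal_zero, add_zero] at h3
    exact h3.mono_left nhdsWithin_le_nhds
  · filter_upwards [self_mem_nhdsWithin] with ε hε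
    have hε' : (0 : ℝ) < ε := hε
    change (i : ℝ) / 2 + 1 < ((i : ℂ) / 2 + 1 + ε).re
    have h1 := ed_re i
    unfold ed at h1
    rw [Complex.add_re, h1, Complex.ofReal_re]
    linarith

/-- **The sizes in a relation.** -/
theorem size_rel {ι : Type} [Fintype ι] {Y : ι → Ext K} [∀ j, Algebra K₀ (Y j).F]
    [∀ j, IsScalarTower K₀ K (Y j).F]
    {n : ι → ℤ} {m : ℤ} (h : ∀ σ : GK K, ∑ j, n j * (fixn K (Y j).F σ : ℤ) = m)
    (hi : i ≤ 2 * d) {B₀ : HeightOneSpectrum (𝓞 K) → ℂ[X]} (hB₀ : IsEulerSystem X d i N B₀)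
    {B : ∀ j, HeightOneSpectrum (𝓞 (Y j).F) → ℂ[X]} (hB : ∀ j, IsEulerSystem X d i N (B j)) :
    Tendsto (fun ε : ℝ => m * size i B₀ ε - ∑ j, n j * size i (B j) ε) (𝓝[>] 0) (𝓝 0) := by
  obtain ⟨S, hS⟩ := sys_pow_good h hi (es_iff.1 hB₀).1 (fun j => (es_iff.1 (hB j)).1)
  have hRF := RF_analytic n m S (es_iff.1 hB₀).2 (fun j w => (es_iff.1 (hB j)).2 w)
  have ht := tends_ed i
  have hgood : ∀ᶠ s in 𝓝[{s : ℂ | (i : ℝ) / 2 + 1 < s.re}] (ed i),
      Good B₀ s ∧ ∀ j, Good (B j) s := by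
    have h1 := es_good hB₀
    have h2 : ∀ᶠ s in 𝓝 (ed i), ∀ j, (i : ℝ) / 2 + 1 < s.re → Good (B j) s := by
      rw [eventually_all]
      exact fun j => es_good (hB j)
    filter_upwards [nhdsWithin_le_nhds h1, nhdsWithin_le_nhds h2, self_mem_nhdsWithin] with s a b c
    exact ⟨a c, fun j => b j c⟩
  have h3 : Tendsto (fun ε : ℝ => Real.log ‖RF n m B₀ B S ((i : ℂ) / 2 + 1 + ε)‖) (𝓝[>] 0)
      (𝓝 (Real.log ‖RF n m B₀ B S (ed i)‖)) :=
    ((hRF.1.continuousAt.tendsto.comp (ht.mono_right nhdsWithin_le_nhds)).norm).log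
      (norm_ne_zero_iff.2 hRF.2)
  have h4 : Tendsto (fun ε : ℝ => Real.log (1 / ε)) (𝓝[>] 0) atTop := by
    have h5 := tendsto_neg_atBot_atTop.comp Real.tendsto_log_nhdsGT_zero
    refine h5.congr fun ε => ?_
    simp
  refine (h3.div_atTop h4).congr' ?_
  filter_upwards [ht.eventually hgood,
    (hRF.1.continuousAt.tendsto.comp (ht.mono_right nhdsWithin_le_nhds)).eventually_ne hRF.2]
    with ε hε hR
  have h5 := congrArg (fun z : ℂ => Real.log ‖z‖) (hS _ hε.1 hε.2)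
  beta_reduce at h5
  have hR' : ‖RF n m B₀ B S ((i : ℂ) / 2 + 1 + ε)‖ ≠ 0 := norm_ne_zero_iff.2 hR
  have hP : ‖∏ j, LFun (B j) ((i : ℂ) / 2 + 1 + ε) ^ (n j)‖ ≠ 0 := by
    rw [norm_ne_zero_iff]
    exact Finset.prod_ne_zero_iff.2 fun j _ => zpow_ne_zero _ (hε.2 j).ne_zero
  rw [norm_mul, Real.log_mul hR' hP, norm_zpow, Real.log_zpow, norm_prod,
    Real.log_prod (fun j _ => norm_ne_zero_iff.2 (zpow_ne_zero _ (hε.2 j).ne_zero))] at h5
  simp only [norm_zpow, Real.log_zpow] at h5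
  unfold size
  have h6 : ∀ j, (n j : ℝ) * (Real.log ‖LFun (B j) ((i : ℂ) / 2 + 1 + ε)‖ / Real.log (1 / ε)) =
      (n j * Real.log ‖LFun (B j) ((i : ℂ) / 2 + 1 + ε)‖) / Real.log (1 / ε) := fun j => by ring
  rw [Finset.sum_congr rfl fun j _ => h6 j, ← Finset.sum_div, ← mul_div_assoc, ← sub_div, h5]
  congr 1
  ring

/-- `L ^ t` has a continuation to a neighbourhood of the point on the edge, of order `k` -/
def PowH (i : ℕ) {F : Type} [Field F] [NumberField F] (B : HeightOneSpectrum (𝓞 F) → ℂ[X])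
    (t k : ℤ) : Prop :=
  ∃ Λ : ℂ → ℂ, MeromorphicAt Λ ((i : ℂ) / 2 + 1) ∧
    (∀ᶠ s in 𝓝 ((i : ℂ) / 2 + 1), (i : ℝ) / 2 + 1 < s.re → Λ s = LFun B s ^ t) ∧
    meromorphicOrderAt Λ ((i : ℂ) / 2 + 1) = k

theorem order_zpow {f : ℂ → ℂ} {s : ℂ} (hf : MeromorphicAt f s) {k : ℤ}
    (hk : meromorphicOrderAt f s = k) (n : ℤ) :
    meromorphicOrderAt (fun z => f z ^ n) s = ((n * k : ℤ) : WithTop ℤ) := by
  rw [fun_meromorphicOrderAt_zpow hf, hk]
  rfl

/-- **The orders in a relation.** -/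
theorem pow_rel {ι : Type} [Fintype ι] {Y : ι → Ext K} [∀ j, Algebra K₀ (Y j).F]
    [∀ j, IsScalarTower K₀ K (Y j).F]
    {n : ι → ℤ} {m : ℤ} (h : ∀ σ : GK K, ∑ j, n j * (fixn K (Y j).F σ : ℤ) = m)
    (hi : i ≤ 2 * d) {B₀ : HeightOneSpectrum (𝓞 K) → ℂ[X]} (hB₀ : IsEulerSystem X d i N B₀)
    (t : ℤ) {k : ι → ℤ}
    (hj : ∀ j, ∀ B : HeightOneSpectrum (𝓞 (Y j).F) → ℂ[X], IsEulerSystem X d i N B →
      PowH i B t (k j)) : PowH i B₀ (m * t) (∑ j, n j * k j) := by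
  choose B hB using fun j => es_up (es_iff.1 hB₀).1 (Y j).F
  obtain ⟨S, hS⟩ := sys_pow_good h hi (es_iff.1 hB₀).1 (fun j => (es_iff.1 (hB j)).1)
  have hRF := RF_analytic n m S (es_iff.1 hB₀).2 (fun j w => (es_iff.1 (hB j)).2 w)
  choose Λ hΛ hΛ' hΛ'' using fun j => hj j (B j) (hB j)
  have hR : MeromorphicAt (RF n m B₀ B S) ((i : ℂ) / 2 + 1) := hRF.1.meromorphicAt
  have hR0 : meromorphicOrderAt (RF n m B₀ B S) ((i : ℂ) / 2 + 1) = ((0 : ℤ) : WithTop ℤ) := by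
    have h1 : AnalyticAt ℂ (RF n m B₀ B S) ((i : ℂ) / 2 + 1) := hRF.1
    rw [h1.meromorphicOrderAt_eq, h1.analyticOrderAt_eq_zero.2 hRF.2]
    rfl
  refine ⟨fun s => (RF n m B₀ B S s) ^ t * ∏ j, (Λ j s) ^ (n j), ?_, ?_, ?_⟩
  · exact (hR.fun_zpow t).fun_mul (MeromorphicAt.fun_prod fun j _ => (hΛ j).fun_zpow (n j))
  · have h1 := es_good hB₀
    have h2 : ∀ᶠ s in 𝓝 (ed i), ∀ j, (i : ℝ) / 2 + 1 < s.re → Good (B j) s := by
      rw [eventually_all]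
      exact fun j => es_good (hB j)
    have h3 : ∀ᶠ s in 𝓝 ((i : ℂ) / 2 + 1), ∀ j, (i : ℝ) / 2 + 1 < s.re →
        Λ j s = LFun (B j) s ^ t := by
      rw [eventually_all]
      exact fun j => hΛ' j
    filter_upwards [h1, h2, h3] with s h1 h2 h3 hs
    rw [zpow_mul, hS s (h1 hs) (fun j => h2 j hs), mul_zpow]
    congr 1
    rw [← Finset.prod_zpow]
    refine Finset.prod_congr rfl fun j _ => ?_
    rw [h3 j hs, ← zpow_mul, ← zpow_mul, mul_comm]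
  · rw [fun_meromorphicOrderAt_mul (hR.fun_zpow t)
      (MeromorphicAt.fun_prod fun j _ => (hΛ j).fun_zpow (n j)), order_zpow hR hR0, mul_zero]
    have h4 : meromorphicOrderAt (fun s => ∏ j, (Λ j s) ^ (n j)) ((i : ℂ) / 2 + 1) =
        ∑ j, meromorphicOrderAt (fun s => (Λ j s) ^ (n j)) ((i : ℂ) / 2 + 1) := by
      rw [← meromorphicOrderAt_prod fun j _ => (hΛ j).fun_zpow (n j)]
      congr 1
      ext s
      rw [Finset.prod_apply]
    rw [h4, Finset.sum_congr rfl fun j _ => order_zpow (hΛ j) (hΛ'' j) (n j), ← WithTop.coe_sum]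
    change ((0 + ∑ j, n j * k j : ℤ) : WithTop ℤ) = _
    rw [zero_add]

end

end Pool.Agent.Q5.VL
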