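import Pool.Agent.H26.Lib.R_pool_sql_team_seeded_3997aac3.Q5.BR.Rank2
import Pool.Agent.H26.Lib.R_pool_sql_team_seeded_3997aac3.Q5.HR.Artin

/-! The dimensions of the invariants of a discrete Galois module over the fields in a relation. -/

set_option autoImplicit false
set_option linter.unusedSectionVars false

namespace Pool.Agent.Q5.VL

open NumberField Pool.Agent.W353.NF Pool.Agent.W401.Cheb Pool.Agent.Q5.BR

section
variable {K : Type} [Field K] [NumberField K] {V : Type} [AddCommGroup V] [Module ℚ V]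
  (ρ : Representation ℚ (GK K) V)

/-- the vectors fixed by the stabilizer of an embedding -/
def fixV {F : Type} [Field F] [Algebra K F] (i : F →ₐ[K] AlgebraicClosure K) : Submodule ℚ V where
  carrier := {v | ∀ σ : GK K,
    (σ : AlgebraicClosure K →ₐ[K] AlgebraicClosure K).comp i = i → ρ σ v = v}
  zero_mem' := fun σ _ => map_zero _
  add_mem' := fun {a b} ha hb σ hσ => by rw [map_add, ha σ hσ, hb σ hσ]
  smul_mem' := fun c x hx σ hσ => by rw [map_smul, hx σ hσ]

/-- the dimension of the invariants of the absolute Galois group of `F` -/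
noncomputable def rk (F : Type) [Field F] [NumberField F] [Algebra K F] : ℕ :=
  Module.finrank ℚ (fixV ρ (IsAlgClosed.lift : F →ₐ[K] AlgebraicClosure K))

theorem exists_conj {F : Type} [Field F] [Algebra K F] (i j : F →ₐ[K] AlgebraicClosure K) :
    ∃ τ : GK K, (τ : AlgebraicClosure K →ₐ[K] AlgebraicClosure K).comp i = j := by
  obtain ⟨f, hf⟩ : ∃ f : AlgebraicClosure K →ₐ[K] AlgebraicClosure K, ∀ z : F, f (i z) = j z := by
    let _ : Algebra F (AlgebraicClosure K) := i.toRingHom.toAlgebra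
    have : IsScalarTower K F (AlgebraicClosure K) :=
      IsScalarTower.of_algebraMap_eq fun x => (i.commutes x).symm
    exact HR.exists_extension j
  have hb : Function.Bijective f := Algebra.IsAlgebraic.algHom_bijective f
  exact ⟨AlgEquiv.ofBijective f hb, AlgHom.ext fun z => hf z⟩

theorem finrank_fixV {F : Type} [Field F] [Algebra K F] (i j : F →ₐ[K] AlgebraicClosure K) :
    Module.finrank ℚ (fixV ρ i) = Module.finrank ℚ (fixV ρ j) := by
  obtain ⟨τ, hτ⟩ := exists_conj i j
  have h1 : ∀ v, ρ τ⁻¹ (ρ τ v) = v := by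
    intro v
    have h := congrArg (fun f => f v) (map_mul ρ τ⁻¹ τ)
    rw [inv_mul_cancel, map_one] at h
    exact h.symm
  have h2 : ∀ v, ρ τ (ρ τ⁻¹ v) = v := by
    intro v
    have h := congrArg (fun f => f v) (map_mul ρ τ τ⁻¹)
    rw [mul_inv_cancel, map_one] at h
    exact h.symm
  let e : V ≃ₗ[ℚ] V := LinearEquiv.ofLinearMap (ρ τ) (ρ τ⁻¹) (LinearMap.ext h2) (LinearMap.ext h1)
  have h3 : (fixV ρ i).map (e : V →ₗ[ℚ] V) = fixV ρ j := by
    apply le_antisymm
    · rintro _ ⟨v, hv, rfl⟩ σ hσ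
      change ρ σ (ρ τ v) = ρ τ v
      have h4 : ((τ⁻¹ * σ * τ : GK K) : AlgebraicClosure K →ₐ[K] AlgebraicClosure K).comp i = i := by
        apply AlgHom.ext
        intro z
        change τ⁻¹ (σ (τ (i z))) = i z
        have h5 : τ (i z) = j z := DFunLike.congr_fun hτ z
        have h6 : σ (j z) = j z := DFunLike.congr_fun hσ z
        rw [h5, h6, ← h5]
        exact τ.symm_apply_apply (i z)
      have h7 := hv _ h4
      rw [map_mul, map_mul] at h7
      change ρ τ⁻¹ (ρ σ (ρ τ v)) = v at h7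
      rw [← h2 (ρ σ (ρ τ v)), h7]
    · intro v hv
      refine ⟨ρ τ⁻¹ v, ?_, h2 v⟩
      intro σ hσ
      have h4 : ((τ * σ * τ⁻¹ : GK K) : AlgebraicClosure K →ₐ[K] AlgebraicClosure K).comp j = j := by
        apply AlgHom.ext
        intro z
        change τ (σ (τ⁻¹ (j z))) = j z
        have h5 : τ (i z) = j z := DFunLike.congr_fun hτ z
        have h6 : σ (i z) = i z := DFunLike.congr_fun hσ z
        have h8 : τ⁻¹ (j z) = i z := by
          rw [← h5]
          exact τ.symm_apply_apply (i z)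
        rw [h8, h6, h5]
      have h7 := hv _ h4
      rw [map_mul, map_mul] at h7
      change ρ τ (ρ σ (ρ τ⁻¹ v)) = v at h7
      rw [← h1 (ρ σ (ρ τ⁻¹ v)), h7]
  rw [← h3]
  exact (LinearEquiv.finrank_map_eq e (fixV ρ i)).symm

theorem rk_eq {F : Type} [Field F] [NumberField F] [Algebra K F]
    (i : F →ₐ[K] AlgebraicClosure K) : rk ρ F = Module.finrank ℚ (fixV ρ i) := finrank_fixV ρ _ _

variable {N : IntermediateField K (AlgebraicClosure K)}

theorem restrict_eq_iff [Normal K N] {σ : GK K} :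
    (AlgEquiv.restrictNormal σ N : N ≃ₐ[K] N) = 1 ↔
      (σ : AlgebraicClosure K →ₐ[K] AlgebraicClosure K).comp N.val = N.val := by
  constructor
  · intro h
    apply AlgHom.ext
    intro x
    have h2 := AlgEquiv.restrictNormal_commutes σ N x
    rw [h] at h2
    exact h2.symm
  · intro h
    apply AlgEquiv.ext
    intro x
    apply (algebraMap N (AlgebraicClosure K)).injective
    rw [AlgEquiv.restrictNormal_commutes σ N x]
    exact DFunLike.congr_fun h x

theorem stab [Normal K N] (σ : GK K) {v : V} (hv : v ∈ fixV ρ N.val) :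
    ρ σ v ∈ fixV ρ N.val := by
  intro τ hτ
  have h1 : ((σ⁻¹ * τ * σ : GK K) : AlgebraicClosure K →ₐ[K] AlgebraicClosure K).comp N.val =
      N.val := by
    rw [← restrict_eq_iff] at hτ ⊢
    have h2 : AlgEquiv.restrictNormalHom N (σ⁻¹ * τ * σ) = 1 := by
      rw [map_mul, map_mul, map_inv]
      have h3 : AlgEquiv.restrictNormalHom N τ = 1 := hτ
      rw [h3]
      group
    exact h2
  have h7 := hv _ h1
  rw [map_mul, map_mul] at h7
  change ρ σ⁻¹ (ρ τ (ρ σ v)) = v at h7
  have h2 : ∀ v, ρ σ (ρ σ⁻¹ v) = v := by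
    intro v
    have h := congrArg (fun f => f v) (map_mul ρ σ σ⁻¹)
    rw [mul_inv_cancel, map_one] at h
    exact h.symm
  rw [← h2 (ρ τ (ρ σ v)), h7]

theorem apply_congr [Normal K N] {σ τ : GK K}
    (h : AlgEquiv.restrictNormalHom N σ = AlgEquiv.restrictNormalHom N τ) {v : V}
    (hv : v ∈ fixV ρ N.val) : ρ σ v = ρ τ v := by
  have h1 : (AlgEquiv.restrictNormal (τ⁻¹ * σ : GK K) N : N ≃ₐ[K] N) = 1 := by
    change AlgEquiv.restrictNormalHom N (τ⁻¹ * σ) = 1
    rw [map_mul, map_inv, h, inv_mul_cancel]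
  have h2 := hv _ (restrict_eq_iff.1 h1)
  rw [map_mul] at h2
  change ρ τ⁻¹ (ρ σ v) = v at h2
  have h3 : ρ τ (ρ τ⁻¹ (ρ σ v)) = ρ σ v := by
    have h := congrArg (fun f => f (ρ σ v)) (map_mul ρ τ τ⁻¹)
    rw [mul_inv_cancel, map_one] at h
    exact h.symm
  rw [← h3, h2]

/-- a lift -/
noncomputable def lft [Normal K N] (g : N ≃ₐ[K] N) : GK K :=
  (AlgEquiv.restrictNormalHom_surjective (AlgebraicClosure K) (K₁ := N) g).choose

theorem lft_spec [Normal K N] (g : N ≃ₐ[K] N) : AlgEquiv.restrictNormalHom N (lft g) = g :=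
  (AlgEquiv.restrictNormalHom_surjective (AlgebraicClosure K) (K₁ := N) g).choose_spec

/-- the action of the Galois group of `N` -/
noncomputable def repN (N : IntermediateField K (AlgebraicClosure K)) [Normal K N] :
    Representation ℚ (N ≃ₐ[K] N) (fixV ρ N.val) where
  toFun g := (ρ (lft g)).restrict fun v hv => stab ρ (lft g) hv
  map_one' := by
    ext v
    change ρ (lft (1 : N ≃ₐ[K] N)) v.1 = v.1
    rw [apply_congr ρ (σ := lft (1 : N ≃ₐ[K] N)) (τ := 1) (by rw [lft_spec, map_one]) v.2, map_one]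
    rfl
  map_mul' g h := by
    ext v
    change ρ (lft (g * h)) v.1 = ρ (lft g) (ρ (lft h) v.1)
    rw [apply_congr ρ (σ := lft (g * h)) (τ := lft g * lft h)
      (by rw [map_mul, lft_spec, lft_spec, lft_spec]) v.2, map_mul]
    rfl

theorem repN_apply [Normal K N] (g : N ≃ₐ[K] N) (v : fixV ρ N.val) :
    ((repN ρ N g v : fixV ρ N.val) : V) = ρ (lft g) v.1 := rfl

/-- the action of a subgroup -/
noncomputable def repH [Normal K N] (H : Subgroup (N ≃ₐ[K] N)) :
    Representation ℚ H (fixV ρ N.val) := (repN ρ N).comp H.subtype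

variable {F : Type} [Field F] [Algebra K F]

theorem mem_fixing' {N : Type} [Field N] [Algebra K N] {g : N ≃ₐ[K] N} {i : F →ₐ[K] N} :
    g ∈ i.fieldRange.fixingSubgroup ↔ (g : N →ₐ[K] N).comp i = i := by
  constructor
  · intro h
    ext x
    exact h ⟨i x, ⟨x, rfl⟩⟩
  · rintro h ⟨_, ⟨x, rfl⟩⟩
    exact DFunLike.congr_fun h x

/-- the invariants of a stabilizer -/
theorem map_invariants [Normal K N] (i : F →ₐ[K] N) :
    (repH ρ i.fieldRange.fixingSubgroup).invariants.map
      (fixV ρ N.val).subtype = fixV ρ (N.val.comp i) := by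
  apply le_antisymm
  · rintro _ ⟨w, hw, rfl⟩ σ hσ
    have h1 : AlgEquiv.restrictNormalHom N σ ∈ i.fieldRange.fixingSubgroup := by
      rw [mem_fixing']
      apply AlgHom.ext
      intro x
      apply (algebraMap N (AlgebraicClosure K)).injective
      have h2 := AlgEquiv.restrictNormal_commutes σ N (i x)
      exact h2.trans (DFunLike.congr_fun hσ x)
    have h3 := congrArg Subtype.val (hw ⟨_, h1⟩)
    change ρ (lft (AlgEquiv.restrictNormalHom N σ)) w.1 = w.1 at h3
    change ρ σ w.1 = w.1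
    rw [apply_congr ρ (σ := σ) (τ := lft (AlgEquiv.restrictNormalHom N σ))
      (by rw [lft_spec]) w.2, h3]
  · intro v hv
    have hvN : v ∈ fixV ρ N.val := by
      intro σ hσ
      refine hv σ ?_
      rw [← AlgHom.comp_assoc, hσ]
    refine ⟨⟨v, hvN⟩, ?_, rfl⟩
    rintro ⟨g, hg⟩
    apply Subtype.ext
    change ρ (lft g) v = v
    refine hv _ ?_
    rw [mem_fixing'] at hg
    apply AlgHom.ext
    intro x
    have h2 := AlgEquiv.restrictNormal_commutes (lft g) N (i x)
    change (lft g) (algebraMap N (AlgebraicClosure K) (i x)) = algebraMap N (AlgebraicClosure K) (i x)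
    rw [← h2]
    have h3 : AlgEquiv.restrictNormal (lft g) N = g := lft_spec g
    rw [h3]
    exact congrArg _ (DFunLike.congr_fun hg x)

theorem finrank_invariants [Normal K N] (i : F →ₐ[K] N) :
    Module.finrank ℚ (repH ρ i.fieldRange.fixingSubgroup).invariants =
      Module.finrank ℚ (fixV ρ (N.val.comp i)) := by
  rw [← map_invariants ρ i]
  exact (Submodule.equivMapOfInjective _ (Submodule.injective_subtype _) _).finrank_eq

/-- **The dimension as a mean value.** -/
theorem rank_sum [Normal K N] [FiniteDimensional K N] [FiniteDimensional ℚ (fixV ρ N.val)]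
    [NumberField F] (hcard : Nat.card (F →ₐ[K] N) = Module.finrank K F) :
    (Nat.card (N ≃ₐ[K] N) : ℚ) * (rk ρ F : ℚ) =
      ∑ g : N ≃ₐ[K] N, (repN ρ N).character g *
        (Nat.card {i : F →ₐ[K] N // (g : N →ₐ[K] N).comp i = i} : ℚ) := by
  classical
  have hgal : IsGalois K N := {}
  have hfdF : FiniteDimensional K F := inferInstance
  have hfe : Finite (F →ₐ[K] N) := inferInstance
  have := Fintype.ofFinite (F →ₐ[K] N)
  have key : ∀ i : F →ₐ[K] N, (Nat.card i.fieldRange.fixingSubgroup : ℚ) * (rk ρ F : ℚ) =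
      ∑ g : N ≃ₐ[K] N, if (g : N →ₐ[K] N).comp i = i then (repN ρ N).character g else 0 := by
    intro i
    set H := i.fieldRange.fixingSubgroup with hH
    have hFH : Fintype H := Fintype.ofFinite H
    have hc0 : (Nat.card H : ℚ) ≠ 0 := by exact_mod_cast Nat.card_pos.ne'
    let _ : Invertible (Nat.card H : ℚ) := invertibleOfNonzero hc0
    have h1 := Representation.card_inv_mul_sum_char_eq_finrank (repH ρ H)
    rw [finrank_invariants, ← rk_eq ρ (N.val.comp i)] at h1
    rw [← h1, ← mul_assoc, mul_inv_cancel₀ hc0, one_mul, ← Finset.sum_filter]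
    have h2 : ∀ g : N ≃ₐ[K] N, g ∈ Finset.univ.filter (fun g : N ≃ₐ[K] N =>
        (g : N →ₐ[K] N).comp i = i) ↔ g ∈ H := by
      intro g
      rw [Finset.mem_filter, hH, mem_fixing']
      simp
    rw [Finset.sum_subtype _ h2 (fun g => (repN ρ N).character g)]
    rfl
  have hstab : ∀ i : F →ₐ[K] N, (Module.finrank K F) * Nat.card i.fieldRange.fixingSubgroup =
      Nat.card (N ≃ₐ[K] N) := by
    intro i
    rw [IsGalois.card_fixingSubgroup_eq_finrank, IsGalois.card_aut_eq_finrank,
      ← Module.finrank_mul_finrank K i.fieldRange N]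
    congr 1
    exact (AlgEquiv.ofInjectiveField i).toLinearEquiv.finrank_eq
  have h3 : ∀ g : N ≃ₐ[K] N, (Nat.card {i : F →ₐ[K] N // (g : N →ₐ[K] N).comp i = i} : ℚ) =
      ∑ i : F →ₐ[K] N, if (g : N →ₐ[K] N).comp i = i then 1 else 0 := by
    intro g
    rw [Finset.sum_boole, Nat.card_eq_fintype_card, Fintype.card_subtype]
  simp only [h3, Finset.mul_sum, mul_ite, mul_one, mul_zero]
  rw [Finset.sum_comm, ← Finset.sum_congr rfl fun i _ => key i, ← Finset.sum_mul]
  congr 1
  have hF0 : (Module.finrank K F : ℚ) ≠ 0 := by exact_mod_cast Module.finrank_pos.ne'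
  have h4 : ∀ i : F →ₐ[K] N, (Nat.card i.fieldRange.fixingSubgroup : ℚ) =
      (Nat.card (N ≃ₐ[K] N) : ℚ) / (Module.finrank K F : ℚ) := by
    intro i
    rw [eq_div_iff hF0, ← hstab i]
    push_cast
    ring
  rw [Finset.sum_congr rfl fun i _ => h4 i, Finset.sum_const, Finset.card_univ,
    ← Nat.card_eq_fintype_card, hcard, nsmul_eq_mul]
  field_simp

/-- **The relation between the dimensions.** -/
theorem rank_relation {ι : Type} [Fintype ι] {X : ι → Ext K} {n : ι → ℤ}
    (h : ∀ σ : GK K, ∑ j, n j * (fixn K (X j).F σ : ℤ) = 0)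
    (hV : ∀ N : IntermediateField K (AlgebraicClosure K), FiniteDimensional K N →
      FiniteDimensional ℚ (fixV ρ N.val)) :
    ∑ j, n j * (rk ρ (X j).F : ℤ) = 0 := by
  classical
  let N : IntermediateField K (AlgebraicClosure K) :=
    ⨆ j, IntermediateField.normalClosure K (X j).F (AlgebraicClosure K)
  have hfd1 : ∀ j, FiniteDimensional K (X j).F := fun j => inferInstance
  have hfd : FiniteDimensional K N := by
    have : ∀ j, FiniteDimensional K (IntermediateField.normalClosure K (X j).F (AlgebraicClosure K)) :=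
      fun j => inferInstance
    exact IntermediateField.finiteDimensional_iSup_of_finite
  have hnor : Normal K N := by
    have : ∀ j, Normal K (IntermediateField.normalClosure K (X j).F (AlgebraicClosure K)) :=
      fun j => inferInstance
    exact IntermediateField.normal_iSup (F := K) (K := AlgebraicClosure K)
      (t := fun j => IntermediateField.normalClosure K (X j).F (AlgebraicClosure K))
  have hVN := hV N hfd
  have hle : ∀ j, ∀ i : (X j).F →ₐ[K] AlgebraicClosure K, i.fieldRange ≤ N := fun j i =>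
    (AlgHom.fieldRange_le_normalClosure i).trans (le_iSup
      (fun j => IntermediateField.normalClosure K (X j).F (AlgebraicClosure K)) j)
  have hcard : ∀ j, Nat.card ((X j).F →ₐ[K] N) = Module.finrank K (X j).F := by
    intro j
    rw [Nat.card_congr (embEquiv (X j).F N (hle j)), Nat.card_eq_fintype_card, AlgHom.card]
  have hr := fun j => rank_sum ρ (N := N) (F := (X j).F) (hcard j)
  have hfix : ∀ g : N ≃ₐ[K] N, ∑ j, (n j : ℚ) *
      (Nat.card {i : (X j).F →ₐ[K] N // (g : N →ₐ[K] N).comp i = i} : ℚ) = 0 := by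
    intro g
    obtain ⟨σ, rfl⟩ := AlgEquiv.restrictNormalHom_surjective (AlgebraicClosure K) (K₁ := N) g
    have h1 := congrArg (fun z : ℤ => (z : ℚ)) (h σ)
    push_cast at h1
    rw [← h1]
    refine Finset.sum_congr rfl fun j _ => ?_
    rw [← card_fixed (X j).F N (hle j) σ]
    rfl
  have hG : (Nat.card (N ≃ₐ[K] N) : ℚ) ≠ 0 := by exact_mod_cast Nat.card_pos.ne'
  have key : (Nat.card (N ≃ₐ[K] N) : ℚ) * ∑ j, (n j : ℚ) * (rk ρ (X j).F : ℚ) = 0 := by
    have h1 : ∀ j, (Nat.card (N ≃ₐ[K] N) : ℚ) * ((n j : ℚ) * (rk ρ (X j).F : ℚ)) =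
        ∑ g : N ≃ₐ[K] N, (n j : ℚ) * ((repN ρ N).character g *
          (Nat.card {i : (X j).F →ₐ[K] N // (g : N →ₐ[K] N).comp i = i} : ℚ)) := by
      intro j
      rw [mul_left_comm, hr j, Finset.mul_sum]
    rw [Finset.mul_sum, Finset.sum_congr rfl fun j _ => h1 j, Finset.sum_comm]
    refine Finset.sum_eq_zero fun g _ => ?_
    have h2 : ∑ j, (n j : ℚ) * ((repN ρ N).character g *
        (Nat.card {i : (X j).F →ₐ[K] N // (g : N →ₐ[K] N).comp i = i} : ℚ)) =
        (repN ρ N).character g * ∑ j, (n j : ℚ) *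
          (Nat.card {i : (X j).F →ₐ[K] N // (g : N →ₐ[K] N).comp i = i} : ℚ) := by
      rw [Finset.mul_sum]
      exact Finset.sum_congr rfl fun j _ => by ring
    rw [h2, hfix g, mul_zero]
  have h2 := (mul_eq_zero.1 key).resolve_left hG
  exact_mod_cast h2

end

end Pool.Agent.Q5.VL
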