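import Pool.Agent.H26.Lib.R_pool_sql_team_seeded_3997aac3.Q5.VL.Ord
import Pool.Agent.H26.Lib.R_pool_sql_team_seeded_3997aac3.Q5.VL.Abs

/-! The laws for the orders at the edge. -/

set_option autoImplicit false
set_option linter.unusedSectionVars false

namespace Pool.Agent.Q5.VL

open NumberField IsDedekindDomain Filter Topology Polynomial Pool.Agent.W353.NF
  Pool.Agent.W401.Cheb Pool.Agent.Q5.BR
open Pool.Agent.W353.EF (IsFrobenius LFun cone size IsEulerSystem)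

section
variable {F : Type} [Field F] [NumberField F]

theorem PowH.add {K₀ : Type} [Field K₀] [Algebra K₀ F] {n : ℕ}
    {X : Set (MvPolynomial (Fin n) (𝓞 K₀))} {d i N : ℕ} {B : HeightOneSpectrum (𝓞 F) → ℂ[X]}
    (hB : IsEulerSystem X d i N B) {t k t' k' : ℤ} (h : PowH i B t k) (h' : PowH i B t' k') :
    PowH i B (t + t') (k + k') := by
  obtain ⟨Λ, h1, h2, h3⟩ := h
  obtain ⟨Λ', h1', h2', h3'⟩ := h'
  refine ⟨fun s => Λ s * Λ' s, h1.fun_mul h1', ?_, ?_⟩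
  · have hg : ∀ᶠ s in 𝓝 ((i : ℂ) / 2 + 1), (i : ℝ) / 2 + 1 < s.re → Good B s := es_good hB
    filter_upwards [h2, h2', hg] with s a b c hs
    rw [a hs, b hs, zpow_add₀ (c hs).ne_zero]
  · rw [fun_meromorphicOrderAt_mul h1 h1', h3, h3']
    rfl

theorem PowH.neg {i : ℕ} {B : HeightOneSpectrum (𝓞 F) → ℂ[X]} {t k : ℤ} (h : PowH i B t k) :
    PowH i B (-t) (-k) := by
  obtain ⟨Λ, h1, h2, h3⟩ := h
  refine ⟨fun s => (Λ s)⁻¹, h1.fun_inv, ?_, ?_⟩
  · filter_upwards [h2] with s a hs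
    rw [a hs, zpow_neg]
  · rw [fun_meromorphicOrderAt_inv, h3]
    rfl

theorem PowH.zero {i : ℕ} {B : HeightOneSpectrum (𝓞 F) → ℂ[X]} : PowH i B 0 0 := by
  refine ⟨fun _ => 1, MeromorphicAt.const _ _, Eventually.of_forall fun s _ => by
    rw [zpow_zero], ?_⟩
  have h1 : AnalyticAt ℂ (fun _ : ℂ => (1 : ℂ)) ((i : ℂ) / 2 + 1) := analyticAt_const
  rw [h1.meromorphicOrderAt_eq, h1.analyticOrderAt_eq_zero.2 one_ne_zero]
  rfl

/-- the size and the order of a power -/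
theorem PowH.size {i : ℕ} {B : HeightOneSpectrum (𝓞 F) → ℂ[X]}
    {t k : ℤ} (h : PowH i B t k) :
    Tendsto (fun ε : ℝ => (t : ℝ) * Pool.Agent.W353.EF.size i B ε) (𝓝[>] 0) (𝓝 (-(k : ℝ))) := by
  obtain ⟨Λ, h1, h2, h3⟩ := h
  have h4 := size_of_order h1 h3
  refine h4.congr' ?_
  have h5 : ∀ᶠ s in 𝓝[{s : ℂ | (i : ℝ) / 2 + 1 < s.re}] (ed i), Λ s = LFun B s ^ t := by
    have h2' : ∀ᶠ s in 𝓝 (ed i), (i : ℝ) / 2 + 1 < s.re → Λ s = LFun B s ^ t := h2
    filter_upwards [nhdsWithin_le_nhds h2', self_mem_nhdsWithin] with s a b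
    exact a b
  filter_upwards [(tends_ed i).eventually h5] with ε hε
  rw [hε, norm_zpow, Real.log_zpow]
  unfold Pool.Agent.W353.EF.size
  ring

/-- if a power has the right order, so has the function -/
theorem order_of_power {K₀ : Type} [Field K₀] [Algebra K₀ F] {n : ℕ}
    {X : Set (MvPolynomial (Fin n) (𝓞 K₀))} {d i N : ℕ} {B : HeightOneSpectrum (𝓞 F) → ℂ[X]}
    (hB : IsEulerSystem X d i N B) {r : ℤ}
    (h : Tendsto (Pool.Agent.W353.EF.size i B) (𝓝[>] 0) (𝓝 (-(r : ℝ)))) {Λ : ℂ → ℂ}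
    (hΛ : MeromorphicAt Λ ((i : ℂ) / 2 + 1))
    (hΛ' : ∀ᶠ s in 𝓝 ((i : ℂ) / 2 + 1), (i : ℝ) / 2 + 1 < s.re → Λ s = LFun B s) :
    meromorphicOrderAt Λ ((i : ℂ) / 2 + 1) = r := by
  have hne : meromorphicOrderAt Λ ((i : ℂ) / 2 + 1) ≠ ⊤ := by
    intro htop
    have h1 := meromorphicOrderAt_eq_top_iff.1 htop
    have h2 : Tendsto (fun ε : ℝ => (i : ℂ) / 2 + 1 + (ε : ℂ)) (𝓝[>] 0) (𝓝[≠] ((i : ℂ) / 2 + 1)) := by
      rw [tendsto_nhdsWithin_iff]
      constructor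
      · have h2 : Continuous fun ε : ℝ => (i : ℂ) / 2 + 1 + (ε : ℂ) := by fun_prop
        have h3 := h2.tendsto 0
        simp only [Complex.ofReal_zero, add_zero] at h3
        exact h3.mono_left nhdsWithin_le_nhds
      · filter_upwards [self_mem_nhdsWithin] with ε hε
        have hε' : (0 : ℝ) < ε := hε
        simp [hε'.ne']
    have h5 : ∀ᶠ s in 𝓝[{s : ℂ | (i : ℝ) / 2 + 1 < s.re}] (ed i), Λ s = LFun B s ∧ Good B s := by
      have h2' : ∀ᶠ s in 𝓝 (ed i), (i : ℝ) / 2 + 1 < s.re → Λ s = LFun B s := hΛ'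
      filter_upwards [nhdsWithin_le_nhds h2', nhdsWithin_le_nhds (es_good hB),
        self_mem_nhdsWithin] with s a b c
      exact ⟨a c, b c⟩
    obtain ⟨ε, h6, h7⟩ := ((h2.eventually h1).and ((tends_ed i).eventually h5)).exists
    rw [h7.1] at h6
    exact h7.2.ne_zero h6
  obtain ⟨k, hk⟩ := WithTop.ne_top_iff_exists.1 hne
  have h1 : PowH i B 1 k := ⟨Λ, hΛ, by simpa using hΛ', hk.symm⟩
  have h2 := h1.size
  simp only [Int.cast_one, one_mul] at h2
  have h3 := tendsto_nhds_unique h h2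
  have h4 : r = k := by
    have : (r : ℝ) = k := by linarith
    exact_mod_cast this
  rw [← hk, h4]

end

section
variable {K : Type} [Field K] [NumberField K] {n : ℕ} {X : Set (MvPolynomial (Fin n) (𝓞 K))}
  {d i N : ℕ} {V : Type} [AddCommGroup V] [Module ℚ V] {ρ : Representation ℚ (GK K) V}

/-- the law for the powers -/
theorem law_order (hi : i ≤ 2 * d) (a : ℤ)
    (hV : ∀ N : IntermediateField K (AlgebraicClosure K), FiniteDimensional K N →
      FiniteDimensional ℚ (fixV ρ N.val)) :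
    IsLaw (K := K) (fun F _ _ _ t => ∀ B : HeightOneSpectrum (𝓞 F) → ℂ[X],
      IsEulerSystem X d i N B → PowH i B t (t * (a * rk ρ F))) where
  zero := by
    intro F _ _ _ B _
    rw [zero_mul]
    exact PowH.zero
  add := by
    intro F _ _ _ t u ht hu B hB
    rw [add_mul]
    exact PowH.add hB (ht B hB) (hu B hB)
  neg := by
    intro F _ _ _ t ht B hB
    rw [neg_mul]
    exact PowH.neg (ht B hB)
  step := by
    intro F _ _ _ ι _ Y _ _ nn m hrel t hj B hB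
    have h1 := pow_rel (K₀ := K) hrel hi hB t hj
    have h2 := rank_relation_up ρ hrel hV
    have h3 : ∑ j, nn j * (t * (a * (rk ρ (Y j).F : ℤ))) = m * t * (a * (rk ρ F : ℤ)) := by
      have h4 : m * t * (a * (rk ρ F : ℤ)) = t * a * (m * (rk ρ F : ℤ)) := by ring
      rw [h4, ← h2, Finset.mul_sum]
      exact Finset.sum_congr rfl fun j _ => by ring
    rw [h3] at h1
    exact h1

/-- the law for the sizes -/
theorem law_size (hi : i ≤ 2 * d) (a : ℤ)
    (hV : ∀ N : IntermediateField K (AlgebraicClosure K), FiniteDimensional K N →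
      FiniteDimensional ℚ (fixV ρ N.val)) :
    IsLaw (K := K) (fun F _ _ _ t => t ≠ 0 → ∀ B : HeightOneSpectrum (𝓞 F) → ℂ[X],
      IsEulerSystem X d i N B → Tendsto (size i B) (𝓝[>] 0) (𝓝 (-((a * rk ρ F : ℤ) : ℝ)))) := by
  apply isLaw_of_exact
  intro F _ _ _ ι _ Y _ _ nn m hrel hm hj B₀ hB₀
  choose B hB using fun j => es_up (es_iff.1 hB₀).1 (Y j).F
  have h1 := size_rel hrel hi hB₀ hB
  have h2 : Tendsto (fun ε : ℝ => ∑ j, (nn j : ℝ) * size i (B j) ε) (𝓝[>] 0)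
      (𝓝 (∑ j, (nn j : ℝ) * (-((a * rk ρ (Y j).F : ℤ) : ℝ)))) :=
    tendsto_finsetSum _ fun j _ => (hj j (B j) (hB j)).const_mul _
  have h3 := h1.add h2
  have h4 := rank_relation_up ρ hrel hV
  have h5 : (0 : ℝ) + ∑ j, (nn j : ℝ) * (-((a * rk ρ (Y j).F : ℤ) : ℝ)) =
      m * (-((a * rk ρ F : ℤ) : ℝ)) := by
    rw [zero_add]
    have h6 : ((∑ j, nn j * (rk ρ (Y j).F : ℤ) : ℤ) : ℝ) = ((m * (rk ρ F : ℤ) : ℤ) : ℝ) := by
      rw [h4]
    push_cast at h6 ⊢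
    have h7 : (m : ℝ) * -(a * rk ρ F) = -a * (m * rk ρ F) := by ring
    rw [h7, ← h6, Finset.mul_sum]
    exact Finset.sum_congr rfl fun j _ => by ring
  rw [h5] at h3
  have hm' : (m : ℝ) ≠ 0 := by exact_mod_cast hm
  have h6 := h3.const_mul (m : ℝ)⁻¹
  rw [← mul_assoc, inv_mul_cancel₀ hm', one_mul] at h6
  refine h6.congr fun ε => ?_
  rw [sub_add_cancel, ← mul_assoc, inv_mul_cancel₀ hm', one_mul]

end

end Pool.Agent.Q5.VL
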